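import Mathlib

set_option autoImplicit false
set_option linter.unusedSectionVars false
set_option linter.deprecated false

/-! # Sums of `m` units: the sums of conjugates of powers of a unit -/

namespace Pool.Agent.Q264.MU

open Filter Finset NumberField Polynomial

/-- simultaneous recurrence -/
theorem exists_recur {ι : Type} [Fintype ι] (θ : ι → ℂ) (hθ : ∀ i, ‖θ i‖ = 1) (N : ℕ) :
    ∃ j : ℕ, N ≤ j ∧ ∀ i, 1 / 2 ≤ (θ i ^ j).re := by
  obtain ⟨a, -, φ, hφ, hlim⟩ := tendsto_subseq_of_bounded (x := fun (j : ℕ) (i : ι) => θ i ^ j)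
    (s := Metric.closedBall (0 : ι → ℂ) 1) Metric.isBounded_closedBall (by
      intro j
      rw [mem_closedBall_zero_iff, pi_norm_le_iff_of_nonneg zero_le_one]
      intro i
      rw [norm_pow, hθ, one_pow])
  rw [Metric.tendsto_atTop] at hlim
  obtain ⟨n0, hn0⟩ := hlim (1 / 4) (by norm_num)
  have h1 : N + φ n0 ≤ φ (n0 + (N + φ n0)) := by
    have := hφ.le_apply (x := n0 + (N + φ n0))
    omega
  refine ⟨φ (n0 + (N + φ n0)) - φ n0, by omega, fun i => ?_⟩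
  have h2 := hn0 n0 le_rfl
  have h3 := hn0 (n0 + (N + φ n0)) (by omega)
  have h4 : dist (θ i ^ φ (n0 + (N + φ n0))) (θ i ^ φ n0) < 1 / 2 := by
    have e1 := (dist_le_pi_dist (fun i => θ i ^ φ (n0 + (N + φ n0))) a i).trans_lt h3
    have e2 := (dist_le_pi_dist (fun i => θ i ^ φ n0) a i).trans_lt h2
    calc _ ≤ dist (θ i ^ φ (n0 + (N + φ n0))) (a i) + dist (a i) (θ i ^ φ n0) := dist_triangle _ _ _
      _ < 1 / 4 + 1 / 4 := by
        rw [dist_comm (a i)]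
        exact add_lt_add e1 e2
      _ = 1 / 2 := by norm_num
  have h5 : θ i ^ φ (n0 + (N + φ n0)) = θ i ^ φ n0 * θ i ^ (φ (n0 + (N + φ n0)) - φ n0) := by
    rw [← pow_add]
    congr 1
    omega
  rw [h5, dist_eq_norm] at h4
  have h6 : θ i ^ φ n0 * θ i ^ (φ (n0 + (N + φ n0)) - φ n0) - θ i ^ φ n0 =
      θ i ^ φ n0 * (θ i ^ (φ (n0 + (N + φ n0)) - φ n0) - 1) := by ring
  rw [h6, norm_mul, norm_pow, hθ, one_pow, one_mul] at h4
  have h7 := Complex.abs_re_le_norm (θ i ^ (φ (n0 + (N + φ n0)) - φ n0) - 1)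
  rw [Complex.sub_re, Complex.one_re] at h7
  have h8 := (abs_le.1 (h7.trans h4.le)).1
  linarith

theorem exists_big {ι : Type} [Fintype ι] (a : ι → ℂ) (ha : ∀ i, a i ≠ 0) (i0 : ι)
    (h0 : 1 < ‖a i0‖) (B : ℝ) : ∃ j : ℕ, B ≤ (∑ i, a i ^ j).re := by
  obtain ⟨N, hN⟩ : ∃ N : ℕ, 2 * B ≤ ‖a i0‖ ^ N := by
    obtain ⟨N, hN⟩ := pow_unbounded_of_one_lt (2 * B) h0
    exact ⟨N, hN.le⟩
  obtain ⟨j, hj, hre⟩ := exists_recur (fun i => a i / ‖a i‖) (fun i => by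
    rw [norm_div, Complex.norm_real, norm_norm]
    exact div_self (norm_ne_zero_iff.2 (ha i))) N
  refine ⟨j, ?_⟩
  have h1 : ∀ i, ‖a i‖ ^ j / 2 ≤ (a i ^ j).re := by
    intro i
    have h2 : a i ^ j = ((‖a i‖ ^ j : ℝ) : ℂ) * (a i / ‖a i‖) ^ j := by
      have : (‖a i‖ : ℂ) ≠ 0 := by exact_mod_cast norm_ne_zero_iff.2 (ha i)
      push_cast
      rw [div_pow]
      field_simp
    rw [h2, Complex.re_ofReal_mul]
    have h3 := hre i
    have h4 : 0 ≤ ‖a i‖ ^ j := by positivity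
    nlinarith
  rw [Complex.re_sum]
  calc B ≤ ‖a i0‖ ^ N / 2 := by linarith
    _ ≤ ‖a i0‖ ^ j / 2 := by
        have := pow_le_pow_right₀ h0.le hj
        linarith
    _ ≤ (a i0 ^ j).re := h1 i0
    _ ≤ ∑ i, (a i ^ j).re := by
        refine Finset.single_le_sum (f := fun i => (a i ^ j).re) (fun i _ => ?_) (Finset.mem_univ i0)
        have h3 := h1 i
        have h4 : 0 ≤ ‖a i‖ ^ j := by positivity
        linarith

theorem exists_inf_order (F : Type) [Field F] [NumberField F] (h : Infinite (𝓞 F)ˣ) :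
    ∃ ε : (𝓞 F)ˣ, ∀ n : ℕ, 0 < n → ε ^ n ≠ 1 := by
  by_contra hcon
  push Not at hcon
  have h1 : (Units.torsion F : Set (𝓞 F)ˣ) = Set.univ := by
    refine Set.eq_univ_of_forall fun ε => ?_
    obtain ⟨n, hn, h2⟩ := hcon ε
    exact (CommGroup.mem_torsion ε).2 (isOfFinOrder_iff_pow_eq_one.2 ⟨n, hn, h2⟩)
  have h2 : (Units.torsion F : Set (𝓞 F)ˣ).Finite :=
    Set.finite_coe_iff.1 (inferInstance : Finite (Units.torsion F))
  rw [h1] at h2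
  exact Set.infinite_univ h2

variable (K : Type) [Field K] [NumberField K] (F : Type) [Field F] [NumberField F]

theorem sum_hom (hs : ∀ x : F, ((minpoly ℚ x).map (algebraMap ℚ K)).Splits) (x : F) :
    ∑ φ : F →ₐ[ℚ] K, φ x = algebraMap ℚ K (Algebra.trace ℚ F x) := by
  classical
  let ι : K →ₐ[ℚ] ℂ := IsAlgClosed.lift (R := ℚ) (S := K) (M := ℂ)
  apply (ι : K →+* ℂ).injective
  show ι _ = ι _
  have h1 : ι (algebraMap ℚ K (Algebra.trace ℚ F x)) = algebraMap ℚ ℂ (Algebra.trace ℚ F x) :=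
    ι.commutes _
  rw [h1, trace_eq_sum_embeddings ℂ, map_sum]
  have hinj : Function.Injective fun φ : F →ₐ[ℚ] K => ι.comp φ := by
    intro φ ψ h
    ext y
    exact ι.injective (DFunLike.congr_fun h y)
  have hcard : Fintype.card (F →ₐ[ℚ] K) = Fintype.card (F →ₐ[ℚ] ℂ) := by
    rw [AlgHom.card_of_splits ℚ F K hs, AlgHom.card]
  have hbij := (Fintype.bijective_iff_injective_and_card _).2 ⟨hinj, hcard⟩
  exact hbij.sum_comp (fun ψ : F →ₐ[ℚ] ℂ => ψ x)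

theorem bwd0 (hs : ∀ x : F, ((minpoly ℚ x).map (algebraMap ℚ K)).Splits)
    (hinf : Infinite (𝓞 F)ˣ) (B : ℕ) :
    ∃ (z : ℕ) (u : Fin (Module.finrank ℚ F) → (𝓞 K)ˣ), B ≤ z ∧
      ((z : ℕ) : K) = ∑ i, ((u i : 𝓞 K) : K) := by
  classical
  obtain ⟨ε, hε⟩ := exists_inf_order F hinf
  have hε0 : ((ε : 𝓞 F) : F) ≠ 0 := by simp
  -- a large conjugate
  have hbig : ∃ ψ : F →+* ℂ, 1 < ‖ψ ((ε : 𝓞 F) : F)‖ := by
    by_contra hcon
    push Not at hcon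
    obtain ⟨n, hn, h1⟩ := NumberField.Embeddings.pow_eq_one_of_norm_le_one F ℂ hε0
      (ε : 𝓞 F).isIntegral_coe hcon
    refine hε n hn ?_
    apply Units.ext
    apply RingOfIntegers.ext
    push_cast
    exact h1
  obtain ⟨ψ0, hψ0⟩ := hbig
  obtain ⟨j, hj⟩ := exists_big (ι := F →ₐ[ℚ] ℂ) (fun ψ => ψ ((ε : 𝓞 F) : F))
    (fun ψ => (map_ne_zero ψ).2 hε0) (ψ0.toRatAlgHom) (by simpa using hψ0) (B : ℝ)
  -- the trace
  have hint : IsIntegral ℤ (Algebra.trace ℚ F (((ε : 𝓞 F) : F) ^ j)) :=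
    Algebra.isIntegral_trace ((ε : 𝓞 F).isIntegral_coe.pow j)
  obtain ⟨z, hz⟩ := IsIntegrallyClosed.isIntegral_iff.1 hint
  have hzC : (z : ℂ) = ∑ ψ : F →ₐ[ℚ] ℂ, (ψ ((ε : 𝓞 F) : F)) ^ j := by
    have := trace_eq_sum_embeddings (K := ℚ) (L := F) ℂ (x := ((ε : 𝓞 F) : F) ^ j)
    rw [← hz] at this
    simpa using this
  rw [← hzC, Complex.intCast_re] at hj
  have hzB : (B : ℤ) ≤ z := by exact_mod_cast hj
  obtain ⟨w, rfl⟩ : ∃ w : ℕ, z = w := ⟨z.toNat, by omega⟩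
  have hcard : Fintype.card (F →ₐ[ℚ] K) = Module.finrank ℚ F := AlgHom.card_of_splits ℚ F K hs
  let e : Fin (Module.finrank ℚ F) ≃ (F →ₐ[ℚ] K) :=
    (finCongr hcard.symm).trans (Fintype.equivFin (F →ₐ[ℚ] K)).symm
  refine ⟨w, fun i => Units.map (RingOfIntegers.mapRingHom ((e i : F →ₐ[ℚ] K) : F →+* K)).toMonoidHom
    (ε ^ j), by exact_mod_cast hzB, ?_⟩
  have h1 : ∀ i, (((Units.map (RingOfIntegers.mapRingHom ((e i : F →ₐ[ℚ] K) : F →+* K)).toMonoidHom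
    (ε ^ j) : (𝓞 K)ˣ) : 𝓞 K) : K) = (e i) (((ε : 𝓞 F) : F) ^ j) := by
    intro i
    rfl
  simp only [h1]
  rw [e.sum_comp (fun φ : F →ₐ[ℚ] K => φ (((ε : 𝓞 F) : F) ^ j)), sum_hom K F hs, ← hz]
  simp

theorem bwd (hs : ∀ x : F, ((minpoly ℚ x).map (algebraMap ℚ K)).Splits)
    (hinf : Infinite (𝓞 F)ˣ) (m : ℕ) (hm : Module.finrank ℚ F ≤ m) :
    {n : ℕ | 0 < n ∧ ∃ u : Fin m → (𝓞 K)ˣ, (n : K) = ∑ i, ((u i : 𝓞 K) : K)}.Infinite := by
  obtain ⟨d, rfl⟩ := Nat.exists_eq_add_of_le hm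
  rw [Set.infinite_iff_exists_gt]
  intro B
  obtain ⟨z, u, hz, hu⟩ := bwd0 K F hs hinf (B + 1)
  refine ⟨z + d, ⟨by omega, Fin.append u (fun _ => 1), ?_⟩, by omega⟩
  rw [Fin.sum_univ_add]
  simp only [Fin.append_left, Fin.append_right]
  rw [← hu]
  simp

end Pool.Agent.Q264.MU
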