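import Mathlib
import Pool.Agent.Y215.SK.Grps

set_option autoImplicit false
set_option linter.unusedSectionVars false
set_option linter.deprecated false

/-! # Sums of `m` units: subsequences, Northcott, the group of all conjugates -/

namespace Pool.Agent.Q264.MU

open Filter Finset NumberField
open Pool.Agent.Helper259.AbsHt Pool.Agent.Y215.SK Height

/-- constant sequence -/
def Cst {α : Type} (f : ℕ → α) : Prop := ∃ c, ∀ n, f n = c

/-- finite-to-one sequence -/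
def Fto {α : Type} (f : ℕ → α) : Prop := ∀ c, {n | f n = c}.Finite

theorem Cst.comp {α : Type} {f : ℕ → α} (h : Cst f) (φ : ℕ → ℕ) : Cst (f ∘ φ) := by
  obtain ⟨c, hc⟩ := h
  exact ⟨c, fun n => hc _⟩

theorem Fto.comp {α : Type} {f : ℕ → α} (h : Fto f) (φ : ℕ → ℕ) (hφ : StrictMono φ) :
    Fto (f ∘ φ) := by
  intro c
  exact (h c).preimage hφ.injective.injOn

theorem dich {α : Type} (f : ℕ → α) : ∃ φ : ℕ → ℕ, StrictMono φ ∧ (Cst (f ∘ φ) ∨ Fto (f ∘ φ)) := by
  by_cases h : Fto f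
  · exact ⟨id, strictMono_id, Or.inr h⟩
  · unfold Fto at h
    push Not at h
    obtain ⟨c, hc⟩ := h
    obtain ⟨φ, hφ, h2⟩ := Nat.exists_strictMono_subsequence (P := fun n => f n = c) (by
      intro N
      obtain ⟨b, hb, hb2⟩ := Set.Infinite.exists_gt hc N
      exact ⟨b, hb2, hb⟩)
    exact ⟨φ, hφ, Or.inl ⟨c, h2⟩⟩

theorem dichs {α ι : Type} (s : Finset ι) (f : ι → ℕ → α) :
    ∃ φ : ℕ → ℕ, StrictMono φ ∧ ∀ i ∈ s, Cst (f i ∘ φ) ∨ Fto (f i ∘ φ) := by
  classical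
  induction s using Finset.induction_on with
  | empty => exact ⟨id, strictMono_id, fun i hi => absurd hi (Finset.notMem_empty _)⟩
  | insert i s hi ih =>
    obtain ⟨φ, hφ, h1⟩ := ih
    obtain ⟨ψ, hψ, h2⟩ := dich (f i ∘ φ)
    refine ⟨φ ∘ ψ, hφ.comp hψ, fun j hj => ?_⟩
    rcases Finset.mem_insert.1 hj with rfl | hj
    · exact h2
    · rcases h1 j hj with h | h
      · exact Or.inl (h.comp ψ)
      · exact Or.inr (h.comp ψ hψ)

/-- Northcott inside a number field -/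
theorem northcott (L : IntermediateField ℚ Qbar) [NumberField L] (B : ℝ) :
    {z : Qbar | z ∈ L ∧ h1 z ≤ B}.Finite := by
  have hN := Northcott.finite_le (h := fun x : L => logHeight₁ x) (B * Module.finrank ℚ L)
  refine (hN.image (fun x : L => (x : Qbar))).subset ?_
  rintro z ⟨hz, h⟩
  refine ⟨⟨z, hz⟩, ?_, rfl⟩
  have h2 := h1_val L ⟨z, hz⟩
  have h3 : (0 : ℝ) < Module.finrank ℚ L := by exact_mod_cast Module.finrank_pos
  change h1 z = _ at h2
  rw [h2, div_le_iff₀ h3] at h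
  exact h

theorem tendsto_h1 (L : IntermediateField ℚ Qbar) [NumberField L] (r : ℕ → Qbar)
    (hr : ∀ n, r n ∈ L) (hf : Fto r) : Tendsto (fun n => h1 (r n)) atTop atTop := by
  rw [tendsto_atTop]
  intro B
  rw [← Nat.cofinite_eq_atTop, Filter.eventually_cofinite]
  have h1' : {n | ¬ B ≤ h1 (r n)} ⊆ ⋃ z ∈ {z : Qbar | z ∈ L ∧ h1 z ≤ B}, {n | r n = z} := by
    intro n hn
    simp only [Set.mem_setOf_eq, not_le] at hn
    simp only [Set.mem_iUnion]
    exact ⟨r n, ⟨hr n, hn.le⟩, rfl⟩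
  exact ((northcott L B).biUnion fun z _ => hf z).subset h1'

theorem exists_low {ι : Type} [Fintype ι] (g : ι → ℕ → ℝ) (hg : ∀ i, Tendsto (g i) atTop atTop) :
    ∃ L : ℕ → ℝ, Tendsto L atTop atTop ∧ ∀ i n, L n ≤ g i n := by
  classical
  refine ⟨fun n => (Finset.univ : Finset (Option ι)).inf' Finset.univ_nonempty
    (fun o => o.elim (n : ℝ) (fun i => g i n)), ?_, fun i n => ?_⟩
  · rw [tendsto_atTop]
    intro B
    have h1 : ∀ᶠ n : ℕ in atTop, ∀ i, B ≤ g i n := by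
      rw [Filter.eventually_all]
      intro i
      exact (hg i).eventually_ge_atTop B
    filter_upwards [h1, tendsto_natCast_atTop_atTop.eventually_ge_atTop B] with n h2 h3
    rw [Finset.le_inf'_iff]
    rintro (_ | i) _
    · exact h3
    · exact h2 i
  · exact Finset.inf'_le _ (Finset.mem_univ (some i))

variable (K : Type) [Field K] [NumberField K]

/-- a conjugate of a unit, as a unit of `Qbar` -/
noncomputable def em (σ : K →+* Qbar) : (𝓞 K)ˣ →* Qbarˣ :=
  Units.map ((σ.comp (algebraMap (𝓞 K) K)).toMonoidHom)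

theorem em_val (σ : K →+* Qbar) (u : (𝓞 K)ˣ) : (em K σ u : Qbar) = σ ((u : 𝓞 K) : K) := rfl

theorem exists_gam : ∃ Γ : Subgroup Qbarˣ, Γ.FG ∧ ∀ (σ : K →+* Qbar) (u : (𝓞 K)ˣ), em K σ u ∈ Γ := by
  classical
  have hfg : Group.FG (𝓞 K)ˣ := by
    rw [GroupFG.iff_add_fg]
    have : Module.Finite ℤ (Additive (𝓞 K)ˣ) := inferInstance
    exact Module.Finite.iff_addGroup_fg.1 this
  obtain ⟨S, hS⟩ := (Group.fg_def.1 hfg)
  refine ⟨Subgroup.closure (⋃ σ : K →+* Qbar, (em K σ) '' (S : Set (𝓞 K)ˣ)), ?_, fun σ u => ?_⟩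
  · rw [Subgroup.fg_iff]
    refine ⟨_, rfl, Set.finite_iUnion fun σ => S.finite_toSet.image _⟩
  · have h1 : em K σ u ∈ (Subgroup.closure (S : Set (𝓞 K)ˣ)).map (em K σ) := by
      rw [hS]
      exact ⟨u, Subgroup.mem_top _, rfl⟩
    rw [MonoidHom.map_closure] at h1
    exact Subgroup.closure_mono (Set.subset_iUnion (fun σ : K →+* Qbar => (em K σ) '' (S : Set (𝓞 K)ˣ)) σ) h1

end Pool.Agent.Q264.MU
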