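import Mathlib
import Pool.Agent.Q264.MU.Seq

set_option autoImplicit false
set_option linter.unusedSectionVars false
set_option linter.deprecated false

/-! # Sums of `m` units: the classes of the units occurring in the sums -/

namespace Pool.Agent.Q264.MU

open Filter Finset NumberField
open Pool.Agent.Helper259.AbsHt Pool.Agent.Y215.SK Height

variable (K : Type) [Field K] [NumberField K]

/-- the conjugates of the units of the sums -/
noncomputable def U {m : ℕ} (u : ℕ → Fin m → (𝓞 K)ˣ) (a : Fin m × (K →+* Qbar)) (t : ℕ) : Qbar :=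
  a.2 ((u t a.1 : 𝓞 K) : K)

theorem U_ne {m : ℕ} (u : ℕ → Fin m → (𝓞 K)ˣ) (a : Fin m × (K →+* Qbar)) (t : ℕ) :
    U K u a t ≠ 0 := (em K a.2 (u t a.1)).ne_zero

theorem exists_L0 : ∃ L : IntermediateField ℚ Qbar, NumberField L ∧
    ∀ (σ : K →+* Qbar) (x : K), σ x ∈ L := by
  classical
  obtain ⟨L, hL, hm⟩ := exists_nf (Set.range fun p : (K →+* Qbar) × Fin (Module.finrank ℚ K) =>
    p.1 (Module.finBasis ℚ K p.2)) (Set.finite_range _)
  refine ⟨L, hL, fun σ x => ?_⟩
  rw [← (Module.finBasis ℚ K).sum_repr x, map_sum]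
  refine sum_mem fun i _ => ?_
  rw [Algebra.smul_def, map_mul]
  refine mul_mem ?_ (hm _ ⟨(σ, i), rfl⟩)
  have h : σ (algebraMap ℚ K ((Module.finBasis ℚ K).repr x i)) =
      algebraMap ℚ Qbar ((Module.finBasis ℚ K).repr x i) := by
    have := RingHom.congr_fun (Subsingleton.elim (σ.comp (algebraMap ℚ K)) (algebraMap ℚ Qbar))
      ((Module.finBasis ℚ K).repr x i)
    exact this
  rw [h]
  exact L.algebraMap_mem _

theorem class_eq (m : ℕ) (n : ℕ → ℕ) (u : ℕ → Fin m → (𝓞 K)ˣ)
    (hu : ∀ t, ((n t : ℕ) : K) = ∑ i, ((u t i : 𝓞 K) : K))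
    (hd : ∀ a b, Cst (fun t => U K u a t / U K u b t) ∨ Fto (fun t => U K u a t / U K u b t)) :
    ∃ f : Fin m × (K →+* Qbar) → Fin m × (K →+* Qbar),
      (∀ a b, f a = f b ↔ Cst (fun t => U K u a t / U K u b t)) ∧
      ∀ᶠ t in (UU : Filter ℕ), ∀ (σ τ : K →+* Qbar) (b : Fin m × (K →+* Qbar)),
        ∑ i : Fin m, (open scoped Classical in if f (i, σ) = b then U K u (i, σ) t else 0) =
        ∑ i : Fin m, (open scoped Classical in if f (i, τ) = b then U K u (i, τ) t else 0) := by
  classical
  obtain ⟨L0, hL0, hm0⟩ := exists_L0 K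
  -- the growth function
  obtain ⟨L, hL, hlow⟩ := exists_low
    (ι := {p : (Fin m × (K →+* Qbar)) × (Fin m × (K →+* Qbar)) //
      ¬ Cst (fun t => U K u p.1 t / U K u p.2 t)})
    (fun p t => h1 (U K u p.1.1 t / U K u p.1.2 t)) (by
      intro p
      refine tendsto_h1 L0 _ (fun t => ?_) ((hd p.1.1 p.1.2).resolve_left p.2)
      exact div_mem (hm0 _ _) (hm0 _ _))
  -- the group
  obtain ⟨Γ, hΓ, hmem⟩ := exists_gam K
  obtain ⟨ρ, D, C0, hG⟩ := exists_grp Γ hΓ
  have hG' : ∀ (a : Fin m × (K →+* Qbar)) (t : ℕ), ∃ (s : Qbar) (q : Fin ρ → ℤ), s ≠ 0 ∧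
      h1 s ≤ C0 ∧ U K u a t = s * ((mo D.g q : D.K) : Qbar) := by
    intro a t
    exact hG (em K a.2 (u t a.1)) ⟨1, one_pos, by rw [pow_one]; exact hmem _ _⟩
  choose s q hs0 hsC hUsq using hG'
  have hgm : ∀ a, gm (U K u a) = gm (s a) * yy D (fun t => q a t) := by
    intro a
    unfold yy
    rw [gm_mul]
    congr 1
    funext t
    exact hUsq a t
  have hsm : ∀ a, gm (s a) ∈ KK L hL := fun a =>
    mem_KK_of_le _ C0 (Filter.Eventually.of_forall fun t => hsC a t)
  have hsne : ∀ a, gm (s a) ≠ 0 := fun a => gm_ne_zero.2 (Filter.Eventually.of_forall fun t => hs0 a t)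
  have hquot : ∀ a b, yy D (fun t => q a t) / yy D (fun t => q b t) =
      gm (fun t => U K u a t / U K u b t) * (gm (s b) / gm (s a)) := by
    intro a b
    have e : gm (fun t => U K u a t / U K u b t) = gm (U K u a) / gm (U K u b) := by
      rw [gm_div]
    rw [e, hgm, hgm]
    have h1 := hsne a
    have h2 := hsne b
    have h3 := yy_ne D (fun t => q b t)
    field_simp
  let R : Fin m × (K →+* Qbar) → Fin m × (K →+* Qbar) → Prop := fun a b =>
    Cst (fun t => U K u a t / U K u b t)
  have hR : Equivalence R := by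
    refine ⟨fun a => ⟨1, fun t => div_self (U_ne K u a t)⟩, ?_, ?_⟩
    · rintro a b ⟨c, hc⟩
      refine ⟨c⁻¹, fun t => ?_⟩
      rw [← hc t, inv_div]
    · rintro a b d ⟨c, hc⟩ ⟨c', hc'⟩
      refine ⟨c * c', fun t => ?_⟩
      rw [← hc t, ← hc' t]
      have h2 := U_ne K u b t
      have h3 := U_ne K u d t
      field_simp
  obtain ⟨f, hf1, hf2⟩ := exists_rep R hR
  refine ⟨f, hf1, ?_⟩
  have hf3 : ∀ a b, f a = f b ↔ yy D (fun t => q a t) / yy D (fun t => q b t) ∈ KK L hL := by
    intro a b
    rw [hf1]
    constructor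
    · rintro ⟨c, hc⟩
      rw [hquot]
      refine mul_mem ?_ (div_mem (hsm b) (hsm a))
      have : gm (fun t => U K u a t / U K u b t) = cst c := by
        show _ = gm _
        congr 1
        funext t
        exact hc t
      rw [this]
      exact cst_mem c
    · intro h
      by_contra hcon
      have h2 : gm (fun t => U K u a t / U K u b t) ∈ KK L hL := by
        have e : gm (fun t => U K u a t / U K u b t) =
            (yy D (fun t => q a t) / yy D (fun t => q b t)) * (gm (s a) / gm (s b)) := by
          rw [hquot]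
          have h1 := hsne a
          have h2 := hsne b
          field_simp
        rw [e]
        exact mul_mem h (div_mem (hsm a) (hsm b))
      rw [mem_KK] at h2
      have h3 := h2 (1 / 2) (by norm_num)
      have h4 : ∀ᶠ t in (UU : Filter ℕ), False := by
        filter_upwards [h3, ev_of_atTop (hL.eventually_ge_atTop 1)] with t ht1 ht2
        have h5 := hlow ⟨(a, b), hcon⟩ t
        linarith
      exact (Filter.eventually_false_iff_eq_bot.1 h4 ▸ (inferInstance : (UU : Filter ℕ).NeBot)).ne rfl
  -- the equations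
  have key : ∀ (σ τ : K →+* Qbar) (b : Fin m × (K →+* Qbar)), ∀ᶠ t in (UU : Filter ℕ),
      ∑ i : Fin m, (if f (i, σ) = b then U K u (i, σ) t else 0) =
        ∑ i : Fin m, (if f (i, τ) = b then U K u (i, τ) t else 0) := by
    intro σ τ b
    have hsum2 : ∀ (P : Fin m × (K →+* Qbar) → GQ) (σ : K →+* Qbar),
        ∑ a, (if a.2 = σ then P a else 0) = ∑ i : Fin m, P (i, σ) := by
      intro P σ
      rw [Fintype.sum_prod_type]
      refine Finset.sum_congr rfl fun i _ => ?_
      simp
    have hcs := class_sums D L hL (fun t a => q a t)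
      (fun a => (if a.2 = σ then gm (s a) else 0) - (if a.2 = τ then gm (s a) else 0)) (by
        intro a
        refine sub_mem ?_ ?_
        · split_ifs
          · exact hsm a
          · exact zero_mem _
        · split_ifs
          · exact hsm a
          · exact zero_mem _) (by
        have e : ∀ a : Fin m × (K →+* Qbar),
            ((if a.2 = σ then gm (s a) else 0) - (if a.2 = τ then gm (s a) else 0)) *
              yy D (fun t => q a t) =
            (if a.2 = σ then gm (U K u a) else 0) - (if a.2 = τ then gm (U K u a) else 0) := by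
          intro a
          rw [sub_mul, ite_mul, ite_mul, zero_mul, ← hgm]
        simp only [e]
        rw [Finset.sum_sub_distrib, hsum2, hsum2, gm_sum, gm_sum, gm_sub, gm_eq_zero]
        refine Filter.Eventually.of_forall fun t => ?_
        have h1 : ∀ σ : K →+* Qbar, ∑ i : Fin m, U K u (i, σ) t = ((n t : ℕ) : Qbar) := by
          intro σ
          have := congrArg σ (hu t)
          rw [map_natCast, map_sum] at this
          exact this.symm
        rw [h1, h1, sub_self]) f hf3 hf2 b
    have e : ∀ a : Fin m × (K →+* Qbar),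
        ((if a.2 = σ then gm (s a) else 0) - (if a.2 = τ then gm (s a) else 0)) *
          yy D (fun t => q a t) =
        (if a.2 = σ then gm (U K u a) else 0) - (if a.2 = τ then gm (U K u a) else 0) := by
      intro a
      rw [sub_mul, ite_mul, ite_mul, zero_mul, ← hgm]
    simp only [e] at hcs
    rw [Finset.sum_filter] at hcs
    have e2 : ∀ a : Fin m × (K →+* Qbar),
        (if f a = b then (if a.2 = σ then gm (U K u a) else 0) -
          (if a.2 = τ then gm (U K u a) else 0) else 0) =
        (if a.2 = σ then (if f a = b then gm (U K u a) else 0) else 0) -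
          (if a.2 = τ then (if f a = b then gm (U K u a) else 0) else 0) := by
      intro a
      split_ifs <;> simp
    simp only [e2] at hcs
    rw [Finset.sum_sub_distrib, hsum2, hsum2, sub_eq_zero] at hcs
    have e3 : ∀ (σ : K →+* Qbar) (i : Fin m),
        (if f (i, σ) = b then gm (U K u (i, σ)) else 0) =
        gm (fun t => if f (i, σ) = b then U K u (i, σ) t else 0) := by
      intro σ i
      split_ifs
      · rfl
      · exact gm_zero.symm
    simp only [e3] at hcs
    rw [gm_sum, gm_sum, gm_eq] at hcs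
    exact hcs
  rw [Filter.eventually_all]
  intro σ
  rw [Filter.eventually_all]
  intro τ
  rw [Filter.eventually_all]
  intro b
  exact key σ τ b

end Pool.Agent.Q264.MU
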