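import Mathlib
import Pool.Agent.Q264.MU.Cls

set_option autoImplicit false
set_option linter.unusedSectionVars false
set_option linter.deprecated false

/-! # Sums of `m` units: the fields generated by the partial sums -/

namespace Pool.Agent.Q264.MU

open Filter Finset NumberField Polynomial
open Pool.Agent.Helper259.AbsHt Pool.Agent.Y215.SK Height

variable (K : Type) [Field K] [NumberField K]

/-- the partial sums -/
noncomputable def ys {m : ℕ} (u : ℕ → Fin m → (𝓞 K)ˣ)
    (f : Fin m × (K →+* Qbar) → Fin m × (K →+* Qbar)) (σ : K →+* Qbar)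
    (b : Fin m × (K →+* Qbar)) (t : ℕ) : K :=
  ∑ i : Fin m, (open scoped Classical in if f (i, σ) = b then ((u t i : 𝓞 K) : K) else 0)

theorem map_ys {m : ℕ} (u : ℕ → Fin m → (𝓞 K)ˣ)
    (f : Fin m × (K →+* Qbar) → Fin m × (K →+* Qbar)) (σ τ : K →+* Qbar)
    (b : Fin m × (K →+* Qbar)) (t : ℕ) :
    τ (ys K u f σ b t) = ∑ i : Fin m, (open scoped Classical in
      if f (i, σ) = b then U K u (i, τ) t else 0) := by
  classical
  unfold ys
  rw [map_sum]
  refine Finset.sum_congr rfl fun i _ => ?_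
  split_ifs
  · rfl
  · exact map_zero τ

theorem cst_iff {m : ℕ} (u : ℕ → Fin m → (𝓞 K)ˣ) (σ : K →+* Qbar) (i j : Fin m) :
    Cst (fun t => U K u (i, σ) t / U K u (j, σ) t) ↔
    Cst (fun t => ((u t i : 𝓞 K) : K) / ((u t j : 𝓞 K) : K)) := by
  constructor
  · rintro ⟨c, hc⟩
    refine ⟨((u 0 i : 𝓞 K) : K) / ((u 0 j : 𝓞 K) : K), fun t => ?_⟩
    apply σ.injective
    rw [map_div₀, map_div₀]
    exact (hc t).trans (hc 0).symm
  · rintro ⟨c, hc⟩
    refine ⟨σ c, fun t => ?_⟩
    rw [← hc t, map_div₀]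
    rfl

theorem f_iff {m : ℕ} (u : ℕ → Fin m → (𝓞 K)ˣ)
    (f : Fin m × (K →+* Qbar) → Fin m × (K →+* Qbar))
    (hf : ∀ a b, f a = f b ↔ Cst (fun t => U K u a t / U K u b t)) (σ τ : K →+* Qbar)
    (i j : Fin m) : f (i, σ) = f (j, σ) ↔ f (i, τ) = f (j, τ) := by
  rw [hf, hf, cst_iff, cst_iff]

theorem splits_y {m : ℕ} (u : ℕ → Fin m → (𝓞 K)ˣ)
    (f : Fin m × (K →+* Qbar) → Fin m × (K →+* Qbar))
    (hf : ∀ a b, f a = f b ↔ Cst (fun t => U K u a t / U K u b t)) (t : ℕ)
    (ht : ∀ (σ τ : K →+* Qbar) (b : Fin m × (K →+* Qbar)),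
        ∑ i : Fin m, (open scoped Classical in if f (i, σ) = b then U K u (i, σ) t else 0) =
        ∑ i : Fin m, (open scoped Classical in if f (i, τ) = b then U K u (i, τ) t else 0))
    (σ : K →+* Qbar) (b : Fin m × (K →+* Qbar)) (hy : ys K u f σ b t ≠ 0) :
    (minpoly ℚ (ys K u f σ b t)).natDegree ≤ m ∧
      ((minpoly ℚ (ys K u f σ b t)).map (algebraMap ℚ K)).Splits := by
  classical
  have hroots : ∀ z ∈ (minpoly ℚ (ys K u f σ b t)).rootSet Qbar,
      ∃ i : Fin m, z = σ (ys K u f σ (f (i, σ)) t) := by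
    intro z hz
    rw [← NumberField.Embeddings.range_eval_eq_rootSet_minpoly K Qbar] at hz
    obtain ⟨τ, rfl⟩ := hz
    simp only
    -- some index in the class
    have h1 : ∃ i0 : Fin m, f (i0, σ) = b := by
      by_contra hcon
      push Not at hcon
      apply hy
      unfold ys
      exact Finset.sum_eq_zero fun i _ => if_neg (hcon i)
    obtain ⟨i0, hi0⟩ := h1
    have h2 : τ (ys K u f σ b t) = σ (ys K u f σ (f (i0, τ)) t) := by
      rw [map_ys, map_ys, ht σ τ]
      refine Finset.sum_congr rfl fun i _ => ?_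
      have : f (i, σ) = b ↔ f (i, τ) = f (i0, τ) := by
        rw [← hi0]
        exact f_iff K u f hf σ τ i i0
      simp only [this]
    have h3 : ys K u f σ (f (i0, τ)) t ≠ 0 := by
      intro h
      rw [h, map_zero] at h2
      exact hy ((map_eq_zero τ).1 h2)
    have h4 : ∃ i1 : Fin m, f (i1, σ) = f (i0, τ) := by
      by_contra hcon
      push Not at hcon
      apply h3
      unfold ys
      exact Finset.sum_eq_zero fun i _ => if_neg (hcon i)
    obtain ⟨i1, hi1⟩ := h4
    exact ⟨i1, by rw [h2, hi1]⟩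
  have hP0 : minpoly ℚ (ys K u f σ b t) ≠ 0 := minpoly.ne_zero (IsIntegral.of_finite ℚ _)
  constructor
  · have h1 : (minpoly ℚ (ys K u f σ b t)).rootSet Qbar ⊆
        ((Finset.univ.image fun i : Fin m => σ (ys K u f σ (f (i, σ)) t) : Finset Qbar) : Set Qbar) := by
      intro z hz
      obtain ⟨i, hi⟩ := hroots z hz
      rw [Finset.mem_coe, Finset.mem_image]
      exact ⟨i, Finset.mem_univ _, hi.symm⟩
    rw [← card_rootSet_eq_natDegree (K := Qbar) (Algebra.IsSeparable.isSeparable ℚ _)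
      (IsAlgClosed.splits _), ← Set.toFinset_card]
    calc _ ≤ (Finset.univ.image fun i : Fin m => σ (ys K u f σ (f (i, σ)) t) : Finset Qbar).card := by
          refine Finset.card_le_card ?_
          rw [← Finset.coe_subset, Set.coe_toFinset]
          exact h1
      _ ≤ (Finset.univ : Finset (Fin m)).card := Finset.card_image_le
      _ = m := by simp
  · refine Polynomial.Splits.of_splits_map σ (IsAlgClosed.splits _) ?_
    intro a ha
    rw [Polynomial.map_map] at ha
    have h1 : σ.comp (algebraMap ℚ K) = algebraMap ℚ Qbar := Subsingleton.elim _ _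
    rw [h1] at ha
    have h2 : a ∈ (minpoly ℚ (ys K u f σ b t)).rootSet Qbar := by
      rw [Polynomial.mem_rootSet']
      have := (Polynomial.mem_roots'.1 ha)
      refine ⟨this.1, ?_⟩
      have h3 := this.2
      rwa [Polynomial.IsRoot, Polynomial.eval_map_algebraMap] at h3
    obtain ⟨i, hi⟩ := hroots a h2
    exact ⟨_, hi.symm⟩

/-- the forward direction, for suitable sequences -/
theorem fwd1 (m : ℕ) (n : ℕ → ℕ) (hn : Function.Injective n) (u : ℕ → Fin m → (𝓞 K)ˣ)
    (hu : ∀ t, ((n t : ℕ) : K) = ∑ i, ((u t i : 𝓞 K) : K))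
    (hd : ∀ a b, Cst (fun t => U K u a t / U K u b t) ∨ Fto (fun t => U K u a t / U K u b t)) :
    ∃ (F : IntermediateField ℚ K) (y : K), F = IntermediateField.adjoin ℚ {y} ∧
      Module.finrank ℚ F ≤ m ∧ Infinite (𝓞 F)ˣ ∧
      ((minpoly ℚ y).map (algebraMap ℚ K)).Splits := by
  classical
  obtain ⟨f, hf, hev⟩ := class_eq K m n u hu hd
  obtain ⟨S, hS⟩ : ∃ S : Set ℕ, S = {t | ∀ (σ τ : K →+* Qbar) (b : Fin m × (K →+* Qbar)),
        ∑ i : Fin m, (open scoped Classical in if f (i, σ) = b then U K u (i, σ) t else 0) =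
        ∑ i : Fin m, (open scoped Classical in if f (i, τ) = b then U K u (i, τ) t else 0)} := ⟨_, rfl⟩
  have hSinf : S.Infinite := by
    intro hfin
    have h1 : Sᶜ ∈ (UU : Filter ℕ) := by
      have : Sᶜ ∈ (cofinite : Filter ℕ) := by
        rw [Filter.mem_cofinite, compl_compl]
        exact hfin
      exact hyperfilter_le_cofinite this
    have h2 : S ∈ (UU : Filter ℕ) := by
      rw [hS]
      exact hev
    have h3 := Filter.inter_mem h1 h2
    rw [Set.compl_inter_self] at h3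
    exact (UU : Ultrafilter ℕ).neBot.ne (Filter.empty_mem_iff_bot.1 h3)
  obtain ⟨σ⟩ : Nonempty (K →+* Qbar) := ⟨(IsAlgClosed.lift (R := ℚ) (S := K) (M := Qbar)).toRingHom⟩
  -- the sum over the classes
  have hsum : ∀ t, ((n t : ℕ) : K) = ∑ b, ys K u f σ b t := by
    intro t
    rw [hu]
    unfold ys
    rw [Finset.sum_comm]
    refine Finset.sum_congr rfl fun i _ => ?_
    simp
  -- a class with infinitely many values
  have hb : ∃ b, ((fun t => ys K u f σ b t) '' S).Infinite := by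
    by_contra hcon
    push Not at hcon
    have h1 : (Set.pi Set.univ fun b => (fun t => ys K u f σ b t) '' S).Finite :=
      Set.Finite.pi hcon
    have h2 : ((fun (g : Fin m × (K →+* Qbar) → K) => ∑ b, g b) ''
      (Set.pi Set.univ fun b => (fun t => ys K u f σ b t) '' S)).Finite := h1.image _
    have h3 : ((fun t => ((n t : ℕ) : K)) '' S).Infinite := by
      refine hSinf.image ?_
      intro a _ b _ hab
      exact hn (Nat.cast_injective hab)
    refine h3 (h2.subset ?_)
    rintro _ ⟨t, ht, rfl⟩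
    refine ⟨fun b => ys K u f σ b t, ?_, (hsum t).symm⟩
    intro b _
    exact ⟨t, ht, rfl⟩
  obtain ⟨b, hb⟩ := hb
  -- pigeonhole for the fields
  have hfinI : Finite (IntermediateField ℚ K) :=
    Field.finite_intermediateField_of_exists_primitive_element ℚ K (Field.exists_primitive_element ℚ K)
  have hF : ∃ F : IntermediateField ℚ K,
      ((fun t => ys K u f σ b t) '' {t | t ∈ S ∧ IntermediateField.adjoin ℚ {ys K u f σ b t} = F}).Infinite := by
    by_contra hcon
    push Not at hcon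
    refine hb ((Set.finite_iUnion hcon).subset ?_)
    rintro _ ⟨t, ht, rfl⟩
    exact Set.mem_iUnion.2 ⟨_, ⟨t, ⟨ht, rfl⟩, rfl⟩⟩
  obtain ⟨F, hF⟩ := hF
  obtain ⟨_, ⟨t0, ⟨ht0, hFt0⟩, rfl⟩, hy0⟩ := (hF.diff (Set.finite_singleton (0 : K))).nonempty
  simp only [Set.mem_singleton_iff] at hy0
  have hsp := splits_y K u f hf t0 (by rw [hS] at ht0; exact ht0) σ b hy0
  refine ⟨F, ys K u f σ b t0, hFt0.symm, ?_, ?_, hsp.2⟩
  · rw [← hFt0, IntermediateField.adjoin.finrank (IsIntegral.of_finite ℚ _)]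
    exact hsp.1
  · -- the units
    have h1 : ∃ i0 : Fin m, f (i0, σ) = b := by
      by_contra hcon
      push Not at hcon
      apply hy0
      unfold ys
      exact Finset.sum_eq_zero fun i _ => if_neg (hcon i)
    obtain ⟨i0, hi0⟩ := h1
    have hc : ∀ i, ∃ c : K, f (i, σ) = b → ∀ t, ((u t i : 𝓞 K) : K) = ((u t i0 : 𝓞 K) : K) * c := by
      intro i
      by_cases h : f (i, σ) = b
      · rw [← hi0, hf, cst_iff] at h
        obtain ⟨c, hc⟩ := h
        refine ⟨c, fun _ t => ?_⟩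
        rw [← hc t]
        have : ((u t i0 : 𝓞 K) : K) ≠ 0 := by
          simp
        field_simp
      · exact ⟨0, fun h' => absurd h' h⟩
    choose c hc using hc
    have hyt : ∀ t, ys K u f σ b t = ((u t i0 : 𝓞 K) : K) *
        ∑ i, (if f (i, σ) = b then c i else 0) := by
      intro t
      unfold ys
      rw [Finset.mul_sum]
      refine Finset.sum_congr rfl fun i _ => ?_
      by_cases h : f (i, σ) = b
      · rw [if_pos h, if_pos h]
        exact hc i h t
      · rw [if_neg h, if_neg h, mul_zero]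
    obtain ⟨cc, hcc⟩ : ∃ cc : K, cc = ∑ i, (if f (i, σ) = b then c i else 0) := ⟨_, rfl⟩
    rw [← hcc] at hyt
    have hcc0 : cc ≠ 0 := by
      intro h
      apply hy0
      rw [hyt t0, h, mul_zero]
    have hu0 : ∀ t, ((u t i0 : 𝓞 K) : K) ≠ 0 := by
      intro t
      simp
    -- the map to units of F
    by_contra hfin
    rw [not_infinite_iff_finite] at hfin
    have hfin2 : (Set.range fun w : (𝓞 F)ˣ => (((w : 𝓞 F) : F) : K) * ys K u f σ b t0).Finite :=
      Set.finite_range _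
    refine hF (hfin2.subset ?_)
    rintro _ ⟨t, ⟨ht, hFt⟩, rfl⟩
    have hyF : ys K u f σ b t ∈ F := by
      rw [← hFt]
      exact IntermediateField.mem_adjoin_simple_self ℚ _
    have hyF0 : ys K u f σ b t0 ∈ F := by
      rw [← hFt0]
      exact IntermediateField.mem_adjoin_simple_self ℚ _
    -- the quotient is a unit
    have hq : ((u t i0 : 𝓞 K) : K) / ((u t0 i0 : 𝓞 K) : K) ∈ F := by
      have : ((u t i0 : 𝓞 K) : K) / ((u t0 i0 : 𝓞 K) : K) =
          ys K u f σ b t / ys K u f σ b t0 := by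
        rw [hyt t, hyt t0]
        have := hu0 t0
        field_simp
      rw [this]
      exact div_mem hyF hyF0
    have hinv : ∀ a c : (𝓞 K)ˣ, IsIntegral ℤ (((a : 𝓞 K) : K) / ((c : 𝓞 K) : K)) := by
      intro a c
      have : ((a : 𝓞 K) : K) / ((c : 𝓞 K) : K) = (((a * c⁻¹ : (𝓞 K)ˣ) : 𝓞 K) : K) := by
        have h1 : (((c * c⁻¹ : (𝓞 K)ˣ) : 𝓞 K) : K) = 1 := by simp
        have h2 : ((c : 𝓞 K) : K) * (((c⁻¹ : (𝓞 K)ˣ) : 𝓞 K) : K) = 1 := by
          rw [← h1]
          push_cast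
          rfl
        have h3 : ((c : 𝓞 K) : K) ≠ 0 := by
          simp
        rw [div_eq_iff h3]
        push_cast
        rw [mul_assoc, mul_comm _ ((c : 𝓞 K) : K), h2, mul_one]
      rw [this]
      exact (((a * c⁻¹ : (𝓞 K)ˣ) : 𝓞 K)).isIntegral_coe
    have hint : ∀ (x : K) (hx : x ∈ F), IsIntegral ℤ x → IsIntegral ℤ (⟨x, hx⟩ : F) := by
      intro x hx h
      exact (isIntegral_algHom_iff (F.val.restrictScalars ℤ) F.val.injective).1 h
    have hq' : ((u t0 i0 : 𝓞 K) : K) / ((u t i0 : 𝓞 K) : K) ∈ F := by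
      have := inv_mem hq
      rwa [inv_div] at this
    let w1 : 𝓞 F := ⟨⟨_, hq⟩, hint _ hq (hinv _ _)⟩
    let w2 : 𝓞 F := ⟨⟨_, hq'⟩, hint _ hq' (hinv _ _)⟩
    have hw : w1 * w2 = 1 := by
      apply RingOfIntegers.ext
      apply Subtype.ext
      show ((u t i0 : 𝓞 K) : K) / ((u t0 i0 : 𝓞 K) : K) *
        (((u t0 i0 : 𝓞 K) : K) / ((u t i0 : 𝓞 K) : K)) = 1
      have h1 := hu0 t
      have h2 := hu0 t0
      field_simp
    refine ⟨⟨w1, w2, hw, by rw [mul_comm]; exact hw⟩, ?_⟩
    show ((u t i0 : 𝓞 K) : K) / ((u t0 i0 : 𝓞 K) : K) * ys K u f σ b t0 = ys K u f σ b t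
    rw [hyt t, hyt t0]
    have h2 := hu0 t0
    field_simp

end Pool.Agent.Q264.MU
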