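import Mathlib
import Pool.Agent.Q264.MU.Fld
import Pool.Agent.Q264.MU.Bwd

set_option autoImplicit false
set_option linter.unusedSectionVars false
set_option linter.deprecated false

/-! # Sums of `m` units: the criterion -/

namespace Pool.Agent.Q264.MU

open Filter Finset NumberField Polynomial
open Pool.Agent.Helper259.AbsHt Pool.Agent.Y215.SK Height

theorem units_finite_iff (F : Type) [Field F] [NumberField F] :
    Finite (𝓞 F)ˣ ↔ (Module.finrank ℚ F = 1 ∨ (Module.finrank ℚ F = 2 ∧ IsTotallyComplex F)) := by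
  have h1 : Finite (𝓞 F)ˣ ↔ Units.rank F = 0 := by
    rw [← Units.finrank_eq, Module.finrank_eq_zero_iff]
    constructor
    · intro h x
      obtain ⟨n, hn, h2⟩ := isOfFinOrder_iff_pow_eq_one.1 (isOfFinOrder_of_finite (x.toMul))
      refine ⟨n, by exact_mod_cast hn.ne', ?_⟩
      rw [natCast_zsmul]
      exact h2
    · intro h
      by_contra hcon
      rw [not_finite_iff_infinite] at hcon
      obtain ⟨ε, hε⟩ := exists_inf_order F hcon
      obtain ⟨a, ha, h2⟩ := h (Additive.ofMul ε)
      have h3 : ε ^ a = 1 := h2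
      rcases Int.natAbs_eq a with h4 | h4
      · rw [h4, zpow_natCast] at h3
        exact hε _ (Int.natAbs_pos.2 ha) h3
      · rw [h4, zpow_neg, zpow_natCast, inv_eq_one] at h3
        exact hε _ (Int.natAbs_pos.2 ha) h3
  rw [h1, Units.rank]
  have h2 := InfinitePlace.card_eq_nrRealPlaces_add_nrComplexPlaces (K := F)
  have h3 := InfinitePlace.card_add_two_mul_card_eq_rank F
  have h4 : 0 < Fintype.card (InfinitePlace F) := Fintype.card_pos
  rw [← nrRealPlaces_eq_zero_iff]
  omega

theorem fwd (K : Type) [Field K] [NumberField K] (m : ℕ)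
    (h : {n : ℕ | 0 < n ∧ ∃ u : Fin m → (𝓞 K)ˣ, (n : K) = ∑ i, ((u i : 𝓞 K) : K)}.Infinite) :
    ∃ (F : IntermediateField ℚ K) (y : K), F = IntermediateField.adjoin ℚ {y} ∧
      Module.finrank ℚ F ≤ m ∧ Infinite (𝓞 F)ˣ ∧
      ((minpoly ℚ y).map (algebraMap ℚ K)).Splits := by
  classical
  let nn := h.natEmbedding
  choose u hu using fun t : ℕ => (nn t).2.2
  obtain ⟨φ, hφ, hd⟩ := dichs (Finset.univ : Finset ((Fin m × (K →+* Qbar)) × (Fin m × (K →+* Qbar))))
    (fun p t => U K u p.1 t / U K u p.2 t)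
  exact fwd1 K m (fun t => (nn (φ t) : ℕ))
    (fun a b hab => hφ.injective (nn.injective (Subtype.ext hab)))
    (fun t => u (φ t)) (fun t => hu (φ t)) (fun a b => hd (a, b) (Finset.mem_univ _))

theorem criterion (K : Type) [Field K] [NumberField K] (m : ℕ) :
    {n : ℕ | 0 < n ∧ ∃ u : Fin m → (𝓞 K)ˣ, (n : K) = ∑ i, ((u i : 𝓞 K) : K)}.Finite ↔
      ∀ F M : IntermediateField ℚ K, F ≤ M → IsGalois ℚ M → Module.finrank ℚ F ≤ m →
        (F = ⊥ ∨ (Module.finrank ℚ F = 2 ∧ IsTotallyComplex F)) := by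
  rw [← not_iff_not]
  change Set.Infinite _ ↔ _
  have hU : ∀ F : IntermediateField ℚ K,
      (F = ⊥ ∨ (Module.finrank ℚ F = 2 ∧ IsTotallyComplex F)) ↔ Finite (𝓞 F)ˣ := by
    intro F
    rw [units_finite_iff, IntermediateField.finrank_eq_one_iff]
  simp only [hU]
  constructor
  · intro h
    obtain ⟨F, y, rfl, h1, h2, h3⟩ := fwd K m h
    push Not
    refine ⟨_, IntermediateField.adjoin ℚ ((minpoly ℚ y).rootSet K), ?_, ?_, h1, h2⟩
    · rw [IntermediateField.adjoin_le_iff, Set.singleton_subset_iff]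
      refine IntermediateField.subset_adjoin _ _ ?_
      rw [Polynomial.mem_rootSet]
      exact ⟨minpoly.ne_zero (IsIntegral.of_finite ℚ _), minpoly.aeval _ _⟩
    · have h5 := IntermediateField.adjoin_rootSet_isSplittingField h3
      have h6 := Normal.of_isSplittingField (hFEp := h5)
      have e : (IntermediateField.adjoin ℚ ((minpoly ℚ y).rootSet K)).algebra' =
        (DivisionRing.toRatAlgebra : Algebra ℚ (IntermediateField.adjoin ℚ ((minpoly ℚ y).rootSet K))) :=
        Subsingleton.elim _ _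
      rw [e] at h6
      exact ⟨⟩
  · intro h
    push Not at h
    obtain ⟨F, M, hFM, hM, hm, hinf⟩ := h
    refine bwd K F (fun x => ?_) hinf m hm
    have hxM : (x : K) ∈ M := hFM x.2
    have h1 := hM.to_normal.splits (⟨(x : K), hxM⟩ : M)
    have h2 : minpoly ℚ (⟨(x : K), hxM⟩ : M) = minpoly ℚ x := by
      have e1 := minpoly.algebraMap_eq (A := ℚ) (B := M) (B' := K) (algebraMap M K).injective ⟨(x : K), hxM⟩
      have e2 := minpoly.algebraMap_eq (A := ℚ) (B := F) (B' := K) (algebraMap F K).injective x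
      rw [← e1, ← e2]
      rfl
    rw [h2] at h1
    have h3 := h1.map (algebraMap M K)
    rwa [Polynomial.map_map, ← IsScalarTower.algebraMap_eq] at h3

end Pool.Agent.Q264.MU
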